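import Pool.Agent.TH505.HQ.Glue

/-! Pieces with four ends: replacement by two adjacent vertices or two parallel edges. -/

set_option autoImplicit false

open Finset

namespace Pool.Agent.TH505.HQ

open Pool.Agent.TH505.HF Pool.Agent.TH505.HR
open Pool.Agent.TH505.OW (cut bd Ord mem_cut Tr dl dl_ne bd_dl ord_card)
open Pool.Agent.H160R2.HF (OrGraph)

variable {V E : Type} [Fintype E]

theorem has_bit (g r : ℕ) (h : has g r = true) : (g4 r).testBit g = true := bit_of _ _ h

/-- The states that are guaranteed by the pairing `{0, i}` and the type `c`. -/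
def Cov (g i : ℕ) (c : Bool) : Prop := ∀ y : ℕ → ℕ, (∀ j, y j < 11) → ∀ x < 11,
  nv c true (lv x) + (lv (y 0) + lv (y i)) = 0 →
  (2 : ℤ) ∣ nv c true (cc x) + (cc (y 0) + cc (y i)) →
  nv c false (lv x) + (lv (y (3 - i)) + lv (y 3)) = 0 →
  (2 : ℤ) ∣ nv c false (cc x) + (cc (y (3 - i)) + cc (y 3)) →
  (g4 (code (y 0) (y 1) (y 2) (y 3))).testBit g = true

theorem neg_letter (a b : ℕ) (ha : a < 11) (hb : b < 11) (h1 : lv a + lv b = 0)
    (h2 : (2 : ℤ) ∣ cc a + cc b) : b = sw a := by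
  refine letter_inj b (sw a) hb (sw_lt11 a ha) ?_ ?_
  · rw [lv_sw a ha]; linarith
  · rw [cc_sw a ha]; omega

theorem cov (g : ℕ) (hg : g < 7) : ∃ i, (i = 1 ∨ i = 2) ∧ ∃ c, Cov g i c := by
  have hP : ∀ a < 11, ∀ b < 11,
    has 1 (code a (sw a) b (sw b)) = true ∧ has 2 (code a b (sw a) (sw b)) = true ∧
    has 3 (code a (sw a) b (sw b)) = true ∧ has 4 (code a (sw a) b (sw b)) = true ∧
    has 5 (code a (sw a) b (sw b)) = true ∧ has 6 (code a (sw a) b (sw b)) = true := by
    intro a ha b hb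
    have h := (List.all_eq_true.1 ((List.all_eq_true.1 tabP) a (List.mem_range.2 ha))) b
      (List.mem_range.2 hb)
    simp only [Bool.and_eq_true] at h
    obtain ⟨⟨⟨⟨⟨q1, q2⟩, q3⟩, q4⟩, q5⟩, q6⟩ := h
    exact ⟨q1, q2, q3, q4, q5, q6⟩
  have hP1 : ∀ g', (∀ a < 11, ∀ b < 11, has g' (code a (sw a) b (sw b)) = true) →
      Cov g' 1 true := by
    intro g' h y hy x _ a1 a2 a3 a4
    simp only [nv, if_true, zero_add] at a1 a2 a3 a4
    have e1 := neg_letter (y 0) (y 1) (hy 0) (hy 1) a1 a2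
    have e2 := neg_letter (y 2) (y 3) (hy 2) (hy 3) a3 a4
    rw [e1, e2]
    exact has_bit _ _ (h _ (hy 0) _ (hy 2))
  rcases (show g = 0 ∨ g = 1 ∨ g = 2 ∨ g = 3 ∨ g = 4 ∨ g = 5 ∨ g = 6 by omega) with
    rfl | rfl | rfl | rfl | rfl | rfl | rfl
  · refine ⟨1, Or.inl rfl, false, ?_⟩
    intro y hy x hx a1 a2 a3 a4
    simp only [nv, if_true, if_false, Bool.false_eq_true] at a1 a2 a3 a4
    have h := (List.all_eq_true.1 ((List.all_eq_true.1 ((List.all_eq_true.1 tabH) (y 0)
      (List.mem_range.2 (hy 0)))) (y 1) (List.mem_range.2 (hy 1)))) x (List.mem_range.2 hx)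
    rw [decide_eq_true a1, decide_eq_true (Int.emod_eq_zero_of_dvd a2)] at h
    simp only [Bool.not_true, Bool.false_or] at h
    have h' := (List.all_eq_true.1 ((List.all_eq_true.1 h) (y 2)
      (List.mem_range.2 (hy 2)))) (y 3) (List.mem_range.2 (hy 3))
    rw [decide_eq_true a3, decide_eq_true (Int.emod_eq_zero_of_dvd a4)] at h'
    simp only [Bool.not_true, Bool.false_or] at h'
    exact has_bit _ _ h'
  · exact ⟨1, Or.inl rfl, true, hP1 1 fun a ha b hb => (hP a ha b hb).1⟩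
  · refine ⟨2, Or.inr rfl, true, ?_⟩
    intro y hy x _ a1 a2 a3 a4
    simp only [nv, if_true, zero_add] at a1 a2 a3 a4
    have e1 := neg_letter (y 0) (y 2) (hy 0) (hy 2) a1 a2
    have e2 := neg_letter (y 1) (y 3) (hy 1) (hy 3) a3 a4
    rw [e1, e2]
    exact has_bit _ _ (hP _ (hy 0) _ (hy 1)).2.1
  · exact ⟨1, Or.inl rfl, true, hP1 3 fun a ha b hb => (hP a ha b hb).2.2.1⟩
  · exact ⟨1, Or.inl rfl, true, hP1 4 fun a ha b hb => (hP a ha b hb).2.2.2.1⟩
  · exact ⟨1, Or.inl rfl, true, hP1 5 fun a ha b hb => (hP a ha b hb).2.2.2.2.1⟩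
  · exact ⟨1, Or.inl rfl, true, hP1 6 fun a ha b hb => (hP a ha b hb).2.2.2.2.2⟩

theorem dg4 (a b c d : ℕ) (ha : a < 16) (hb : b < 16) (hc : c < 16) (hd : d < 16) :
    dg (code a b c d) 0 = a ∧ dg (code a b c d) 1 = b ∧ dg (code a b c d) 2 = c ∧
      dg (code a b c d) 3 = d := by
  unfold code
  rw [dg_eq, dg_eq, dg_eq, dg_eq]
  refine ⟨?_, ?_, ?_, ?_⟩ <;> norm_num <;> omega

theorem sum_b (s t : E → V) (X : Set V) (o : ℕ → E) (ho : Ord s t X 4 o) (i : ℕ)
    (hi : i = 1 ∨ i = 2) (b : E → Bool) (hb : ∀ j < 4, b (o j) = true ↔ (j = 0 ∨ j = i))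
    (φ : E → ℤ) :
    (∑ e ∈ cut s t X, (open Classical in if b e = true then φ e else 0)) =
      φ (o 0) + φ (o i) ∧
    (∑ e ∈ cut s t X, (open Classical in if b e = false then φ e else 0)) =
      φ (o (3 - i)) + φ (o 3) := by
  classical
  have k0 := hb 0 (by norm_num)
  have k1 := hb 1 (by norm_num)
  have k2 := hb 2 (by norm_num)
  have k3 := hb 3 (by norm_num)
  rw [sum_ord s t X 4 o ho, sum_ord s t X 4 o ho]
  simp only [Finset.sum_range_succ, Finset.sum_range_zero, zero_add]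
  rcases hi with rfl | rfl
  · have m0 : b (o 0) = true := k0.2 (Or.inl rfl)
    have m1 : b (o 1) = true := k1.2 (Or.inr rfl)
    have m2 : b (o 2) = false := by
      rw [← Bool.not_eq_true, k2]; omega
    have m3 : b (o 3) = false := by
      rw [← Bool.not_eq_true, k3]; omega
    rw [m0, m1, m2, m3]
    simp
  · have m0 : b (o 0) = true := k0.2 (Or.inl rfl)
    have m1 : b (o 1) = false := by
      rw [← Bool.not_eq_true, k1]; omega
    have m2 : b (o 2) = true := k2.2 (Or.inr rfl)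
    have m3 : b (o 3) = false := by
      rw [← Bool.not_eq_true, k3]; omega
    rw [m0, m1, m2, m3]
    simp

/-- Replacement of a piece with four ends. -/
theorem ext4 [Fintype V] [DecidableEq V] [DecidableEq E] (G : OrGraph V E)
    (hC : ∀ Z : Set V, (∃ v, v ∈ Z) → (∃ v, v ∉ Z) → 3 ≤ (cut G.t G.h Z).card)
    (T : Tr V) (hN : T.Nodup) (hW : T.Width G.t G.h 5)
    (h4 : (cut G.t G.h T.set).card = 4) :
    ∃ (b : E → Bool) (c : Bool),
      ((cut G.t G.h T.set).filter (fun e => b e = true)).card = 2 ∧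
      ∀ φ₂ φ₄, (spl G T.set b c).IsHalfFlowPair φ₂ φ₄ →
        ∃ ψ₂ ψ₄, G.IsHalfFlowPair ψ₂ ψ₄ ∧
          ∀ e, ¬ (G.t e ∈ T.set ∧ G.h e ∈ T.set) →
            |ψ₂ e| = |φ₂ (some e)| ∧ ψ₄ e = φ₄ (some e) := by
  classical
  have hout : ∃ v, v ∉ T.set := by
    by_contra h
    push Not at h
    have h0 : cut G.t G.h T.set = ∅ := by
      ext e
      rw [mem_cut]
      simp [h]
    rw [h0] at h4
    simp at h4
  have h1 := keyT G.t G.h Set.univ (fun Z ⟨v, _, hv⟩ ⟨w, _, hw⟩ => hC Z ⟨v, hv⟩ ⟨w, hw⟩) T hN hW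
    (Set.subset_univ _) (by obtain ⟨v, hv⟩ := hout; exact ⟨v, Set.mem_univ _, hv⟩)
  rw [h4] at h1
  obtain ⟨o, ho, g, hg, hS⟩ : HasF G.t G.h T.set 4 7 g4 := by
    rcases h1 with ⟨h, -⟩ | ⟨-, h⟩ | ⟨h, -⟩
    · omega
    · exact h
    · omega
  obtain ⟨i, hi, c, hcov⟩ := cov g hg
  have inj : ∀ j < 4, ∀ k < 4, o j = o k ↔ j = k := fun j hj k hk =>
    ⟨ho.1 j hj k hk, fun h => by rw [h]⟩
  obtain ⟨b, hb⟩ : ∃ b : E → Bool, ∀ j < 4, b (o j) = true ↔ (j = 0 ∨ j = i) := by
    refine ⟨fun e => decide (e = o 0 ∨ e = o i), fun j hj => ?_⟩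
    rw [decide_eq_true_iff, inj j hj 0 (by norm_num), inj j hj i (by omega)]
  refine ⟨b, c, ?_, ?_⟩
  · have h5 : (cut G.t G.h T.set).filter (fun e => b e = true) = {o 0, o i} := by
      ext e
      rw [Finset.mem_filter, Finset.mem_insert, Finset.mem_singleton]
      constructor
      · rintro ⟨h5, h6⟩
        obtain ⟨j, hj, rfl⟩ := (ho.2 e).1 h5
        rcases (hb j hj).1 h6 with rfl | rfl
        · exact Or.inl rfl
        · exact Or.inr rfl
      · rintro (rfl | rfl)
        · exact ⟨(ho.2 _).2 ⟨0, by norm_num, rfl⟩, (hb 0 (by norm_num)).2 (Or.inl rfl)⟩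
        · exact ⟨(ho.2 _).2 ⟨i, by omega, rfl⟩, (hb i (by omega)).2 (Or.inr rfl)⟩
    rw [h5, Finset.card_pair]
    rw [Ne, inj 0 (by norm_num) i (by omega)]
    omega
  · rintro φ₂ φ₄ ⟨⟨a1, a2⟩, ⟨b1, b2⟩, hz⟩
    have a1' : ∀ e, |φ₂ e| ≤ 1 := fun e => by have := a1 e; norm_num at this; exact this
    have b1' : ∀ e, |φ₄ e| ≤ 3 := fun e => by have := b1 e; norm_num at this; exact this
    have hlet : ∀ e, ∃ x < 11, lv x = φ₄ e ∧ (x < 7 ↔ φ₂ e ≠ 0) :=
      fun e => exists_letter (φ₂ e) (φ₄ e) (a1' e) (b1' e) (hz e)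
    choose z z1 z2 z3 using hlet
    have hpar : ∀ e, (2 : ℤ) ∣ cc (z e) - φ₂ e := by
      intro e
      have h5 := letter_facts (z e) (z1 e)
      have h6 := abs_le.1 (a1' e)
      by_cases h7 : φ₂ e = 0
      · rw [(h5.2.2 (fun h8 => (z3 e).1 h8 h7)).1, h7]
        exact ⟨0, by ring⟩
      · rw [h5.2.1 ((z3 e).2 h7)]
        have h8 : φ₂ e = 1 ∨ φ₂ e = -1 := by omega
        rcases h8 with h8 | h8 <;> rw [h8]
        · exact ⟨0, by ring⟩
        · exact ⟨1, by ring⟩
    have f2 : ∀ v, bd (spl G T.set b c).t (spl G T.set b c).h φ₂ v = 0 := fun v => by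
      rw [bd_sum, sub_eq_zero]
      convert a2 v
    have f4 : ∀ v, bd (spl G T.set b c).t (spl G T.set b c).h (fun e => lv (z e)) v = 0 :=
      fun v => by
        rw [show (fun e => lv (z e)) = φ₄ from funext z2, bd_sum, sub_eq_zero]
        convert b2 v
    have fp : ∀ v, (2 : ℤ) ∣ bd (spl G T.set b c).t (spl G T.set b c).h
        (fun e => cc (z e)) v := fun v => by
      have h5 : (2 : ℤ) ∣ bd (spl G T.set b c).t (spl G T.set b c).h (fun e => cc (z e)) v -
          bd (spl G T.set b c).t (spl G T.set b c).h φ₂ v := by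
        unfold Pool.Agent.TH505.OW.bd
        rw [← Finset.sum_sub_distrib]
        refine Finset.dvd_sum fun e _ => ?_
        rw [← sub_mul]
        exact dvd_mul_of_dvd_left (hpar e) _
      rw [f2 v, sub_zero] at h5
      exact h5
    obtain ⟨y, hyd⟩ : ∃ y : E → ℕ, ∀ e, y e = z (some e) := ⟨fun e => z (some e), fun _ => rfl⟩
    have hy : ∀ e, y e < 11 := fun e => by rw [hyd]; exact z1 _
    have hY : ∀ j, ov G.t T.set y (o j) < 11 := by
      intro j
      unfold ov
      split_ifs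
      · exact hy _
      · exact sw_lt11 _ (hy _)
    have sL : ∀ e, (if G.t e ∈ T.set then lv (z (some e)) else - lv (z (some e))) =
        lv (ov G.t T.set y e) := by
      intro e
      unfold ov
      split_ifs
      · rw [hyd]
      · rw [lv_sw _ (hy e), hyd]
    have sC : ∀ e, (2 : ℤ) ∣ (if G.t e ∈ T.set then cc (z (some e)) else - cc (z (some e))) -
        cc (ov G.t T.set y e) := by
      intro e
      unfold ov
      split_ifs
      · rw [hyd, sub_self]; exact dvd_zero _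
      · rw [cc_sw _ (hy e), hyd]; exact ⟨- cc (z (some e)), by ring⟩
    have L := fun j => f4 (Sum.inr j)
    have C := fun j => fp (Sum.inr j)
    simp only [spl_bd] at L C
    have Lt := L true
    have Lf := L false
    have Ct := C true
    have Cf := C false
    rw [(sum_b G.t G.h T.set o ho i hi b hb (fun e => if G.t e ∈ T.set then lv (z (some e))
      else - lv (z (some e)))).1] at Lt
    rw [(sum_b G.t G.h T.set o ho i hi b hb (fun e => if G.t e ∈ T.set then lv (z (some e))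
      else - lv (z (some e)))).2] at Lf
    rw [(sum_b G.t G.h T.set o ho i hi b hb (fun e => if G.t e ∈ T.set then cc (z (some e))
      else - cc (z (some e)))).1] at Ct
    rw [(sum_b G.t G.h T.set o ho i hi b hb (fun e => if G.t e ∈ T.set then cc (z (some e))
      else - cc (z (some e)))).2] at Cf
    rw [sL, sL] at Lt Lf
    have hbit := hcov (fun j => ov G.t T.set y (o j)) hY (z none) (z1 none) Lt (by
      have h5 := dvd_add (sC (o 0)) (sC (o i))
      have h6 := dvd_sub Ct h5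
      refine (dvd_iff_dvd_of_dvd_sub ?_).1 h6
      exact ⟨0, by ring⟩) Lf (by
      have h5 := dvd_add (sC (o (3 - i))) (sC (o 3))
      have h6 := dvd_sub Cf h5
      refine (dvd_iff_dvd_of_dvd_sub ?_).1 h6
      exact ⟨0, by ring⟩)
    have hd := dg4 (ov G.t T.set y (o 0)) (ov G.t T.set y (o 1)) (ov G.t T.set y (o 2))
      (ov G.t T.set y (o 3)) (by have := hY 0; omega) (by have := hY 1; omega)
      (by have := hY 2; omega) (by have := hY 3; omega)
    obtain ⟨f, hf, hfy⟩ := glue4 G.t G.h T.set o ho _ (hS _ hbit) y hy (fun j hj => by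
      rcases (show j = 0 ∨ j = 1 ∨ j = 2 ∨ j = 3 by omega) with rfl | rfl | rfl | rfl
      · exact hd.1
      · exact hd.2.1
      · exact hd.2.2.1
      · exact hd.2.2.2) (fun v hv => by
        have h5 := f4 (Sum.inl ⟨v, hv⟩)
        rw [spl_bd_out] at h5
        simp only [hyd]
        exact h5) (fun v hv => by
        have h5 := fp (Sum.inl ⟨v, hv⟩)
        rw [spl_bd_out] at h5
        simp only [hyd]
        exact h5)
    obtain ⟨ψ, hψ, p1, -⟩ := of_good G f hf
    refine ⟨ψ, _, p1, fun e he => ⟨?_, ?_⟩⟩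
    · have h5 := hψ e
      rw [hfy e he, hyd] at h5
      by_cases h6 : z (some e) < 7
      · have h7 := (z3 (some e)).1 h6
        have h8 := abs_le.1 (a1' (some e))
        have h9 : |φ₂ (some e)| = 1 := by
          rcases (show φ₂ (some e) = 1 ∨ φ₂ (some e) = -1 by omega) with h | h <;> rw [h] <;>
            norm_num
        rw [h9]
        rcases h5.1 h6 with h | h <;> rw [h] <;> norm_num
      · have h7 : φ₂ (some e) = 0 := by
          by_contra h
          exact h6 ((z3 (some e)).2 h)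
        rw [h5.2 h6, h7]
    · show lv (f e) = _
      rw [hfy e he, hyd, z2]

end Pool.Agent.TH505.HQ
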