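import Pool.Agent.TH505.HF.Main

/-! The sets for four ends contain the states of two adjacent vertices or of two parallel edges. -/

set_option autoImplicit false

open Finset

namespace Pool.Agent.TH505.HQ

open Pool.Agent.TH505.HF

/-- Code of a state with four ends. -/
def code (a b c d : ℕ) : ℕ := a + 16 * b + 256 * c + 4096 * d

/-- Is the state in the set number `g`? -/
def has (g r : ℕ) : Bool := Nat.beq (Nat.mod (Nat.shiftRight (g4 r) g) 2) 1

theorem tabH : ((List.range 11).all fun a => (List.range 11).all fun b =>
    (List.range 11).all fun x => !(decide (lv x + (lv a + lv b) = 0)) ||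
      !(decide ((cc x + (cc a + cc b)) % 2 = 0)) ||
      ((List.range 11).all fun c => (List.range 11).all fun d =>
        !(decide (-lv x + (lv c + lv d) = 0)) || !(decide ((-cc x + (cc c + cc d)) % 2 = 0)) ||
        has 0 (code a b c d))) = true := by
  decide +kernel

theorem tabP : ((List.range 11).all fun a => (List.range 11).all fun b =>
    has 1 (code a (sw a) b (sw b)) && has 2 (code a b (sw a) (sw b)) &&
    has 3 (code a (sw a) b (sw b)) && has 4 (code a (sw a) b (sw b)) &&
    has 5 (code a (sw a) b (sw b)) && has 6 (code a (sw a) b (sw b))) = true := by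
  decide +kernel

end Pool.Agent.TH505.HQ
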