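import Pool.Agent.TH505.HR.Fin
import Pool.Agent.TH505.HQ.Tab4

/-! Pieces with four ends: replacement by two adjacent vertices or two parallel edges. -/

set_option autoImplicit false

open Finset

namespace Pool.Agent.TH505.HQ

open Pool.Agent.TH505.HF Pool.Agent.TH505.HR
open Pool.Agent.TH505.OW (cut bd Ord mem_cut Tr dl dl_ne bd_dl)
open Pool.Agent.H160R2.HF (OrGraph)

variable {V E : Type}

open Classical in
/-- The vertex that corresponds to the end `v` of an edge; `i` tells to which of the two new vertices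
the edge is attached if `v ∈ X`. -/
noncomputable def sproj (X : Set V) (i : Bool) (v : V) : {v : V // v ∉ X} ⊕ Bool :=
  if h : v ∈ X then Sum.inr i else Sum.inl ⟨v, h⟩

/-- The set `X` of vertices of `G` is replaced by two vertices `true` and `false`; an end in `X` of
the edge `e` is replaced by the vertex `b e`. There is one new edge `none`, which joins the two new
vertices if `c = false` and is a loop if `c = true`. -/
noncomputable def spl (G : OrGraph V E) (X : Set V) (b : E → Bool) (c : Bool) :
    OrGraph ({v : V // v ∉ X} ⊕ Bool) (Option E) :=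
  ⟨fun e => e.elim (Sum.inr true) (fun e => sproj X (b e) (G.t e)),
   fun e => e.elim (Sum.inr c) (fun e => sproj X (b e) (G.h e))⟩

theorem sproj_inl (X : Set V) (i : Bool) (v w : V) (hv : v ∉ X) :
    sproj X i w = Sum.inl ⟨v, hv⟩ ↔ w = v := by
  unfold sproj
  split_ifs with h
  · constructor
    · intro h1; simp at h1
    · rintro rfl; exact absurd h hv
  · simp

theorem sproj_inr (X : Set V) (i j : Bool) (w : V) :
    sproj X i w = Sum.inr j ↔ w ∈ X ∧ i = j := by
  unfold sproj
  split_ifs with h
  · simp [h]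
  · simp [h]

variable [Fintype E]

/-- The value of `φ` on the new edge as seen from the new vertex `j`. -/
def nv (c : Bool) (j : Bool) (x : ℤ) : ℤ := if c then 0 else if j then x else -x

theorem spl_bd (G : OrGraph V E) (X : Set V) (b : E → Bool) (c : Bool) (φ : Option E → ℤ)
    (j : Bool) : bd (spl G X b c).t (spl G X b c).h φ (Sum.inr j) = nv c j (φ none) +
      ∑ e ∈ cut G.t G.h X, (open Classical in if b e = j then (if G.t e ∈ X then φ (some e)
        else - φ (some e)) else 0) := by
  classical
  rw [bd_dl, Fintype.sum_option]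
  congr 1
  · show φ none * (dl (Sum.inr true : {v : V // v ∉ X} ⊕ Bool) (Sum.inr j) -
      dl (Sum.inr c : {v : V // v ∉ X} ⊕ Bool) (Sum.inr j)) = _
    unfold nv Pool.Agent.TH505.OW.dl
    cases c <;> cases j <;> simp
  · rw [← Finset.sum_subset (Finset.subset_univ (cut G.t G.h X))]
    · refine Finset.sum_congr rfl fun e he => ?_
      show φ (some e) * (dl (sproj X (b e) (G.t e)) (Sum.inr j) -
        dl (sproj X (b e) (G.h e)) (Sum.inr j)) = _
      rw [mem_cut] at he
      unfold Pool.Agent.TH505.OW.dl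
      simp only [sproj_inr]
      by_cases h1 : G.t e ∈ X
      · have h2 : G.h e ∉ X := fun h => he ⟨fun _ => h, fun _ => h1⟩
        by_cases h3 : b e = j <;> simp [h1, h2, h3]
      · have h2 : G.h e ∈ X := by
          by_contra h
          exact he ⟨fun h' => absurd h' h1, fun h' => absurd h' h⟩
        by_cases h3 : b e = j <;> simp [h1, h2, h3]
    · intro e _ he
      show φ (some e) * (dl (sproj X (b e) (G.t e)) (Sum.inr j) -
        dl (sproj X (b e) (G.h e)) (Sum.inr j)) = 0
      rw [mem_cut, not_not] at he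
      unfold Pool.Agent.TH505.OW.dl
      simp only [sproj_inr, he, sub_self, mul_zero]

theorem spl_bd_out (G : OrGraph V E) (X : Set V) (b : E → Bool) (c : Bool) (φ : Option E → ℤ)
    (v : V) (hv : v ∉ X) : bd (spl G X b c).t (spl G X b c).h φ (Sum.inl ⟨v, hv⟩) =
      bd G.t G.h (fun e => φ (some e)) v := by
  classical
  rw [bd_dl, Fintype.sum_option, bd_dl]
  have h0 : φ none * (dl ((spl G X b c).t none) (Sum.inl ⟨v, hv⟩) -
      dl ((spl G X b c).h none) (Sum.inl ⟨v, hv⟩)) = 0 := by
    show φ none * (dl (Sum.inr true : {v : V // v ∉ X} ⊕ Bool) (Sum.inl ⟨v, hv⟩) -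
      dl (Sum.inr c : {v : V // v ∉ X} ⊕ Bool) (Sum.inl ⟨v, hv⟩)) = 0
    rw [dl_ne (by simp), dl_ne (by simp), sub_self, mul_zero]
  rw [h0, zero_add]
  refine Finset.sum_congr rfl fun e _ => ?_
  show φ (some e) * (dl (sproj X (b e) (G.t e)) (Sum.inl ⟨v, hv⟩) -
    dl (sproj X (b e) (G.h e)) (Sum.inl ⟨v, hv⟩)) = _
  unfold Pool.Agent.TH505.OW.dl
  simp only [sproj_inl]

/-- The gluing. -/
theorem glue4 (s t : E → V) (X : Set V) (o : ℕ → E) (ho : Ord s t X 4 o) (r : ℕ)
    (hS : HasSt s t X 4 o r) (y : E → ℕ) (hy : ∀ e, y e < 11)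
    (hr : ∀ i < 4, dg r i = ov s X y (o i))
    (h1 : ∀ v, v ∉ X → bd s t (fun e => lv (y e)) v = 0)
    (h2 : ∀ v, v ∉ X → (2 : ℤ) ∣ bd s t (fun e => cc (y e)) v) :
    ∃ f, Good s t f Set.univ ∧ ∀ e, ¬ (s e ∈ X ∧ t e ∈ X) → f e = y e := by
  classical
  obtain ⟨f, hf, hov⟩ := hS
  have hc : ∀ e ∈ cut s t X, f e = y e := by
    intro e he
    obtain ⟨i, hi, rfl⟩ := (ho.2 e).1 he
    have h9 := hov i hi
    rw [hr i hi] at h9
    unfold ov at h9
    split_ifs at h9
    · exact h9
    · have h10 := congrArg sw h9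
      have h11 := hf.1 (o i)
      have h12 := hy (o i)
      rw [(sw_sw _ (by omega)).1, (sw_sw _ (by omega)).1] at h10
      exact h10
  refine ⟨fun e => if s e ∈ X ∧ t e ∈ X then f e else y e, ⟨fun e => ?_, fun v _ => ?_⟩,
    fun e he => if_neg he⟩
  · dsimp only
    split_ifs
    · exact hf.1 e
    · exact hy e
  · by_cases hv : v ∈ X
    · have key : ∀ w : ℕ → ℤ, bd s t (fun e => w (if s e ∈ X ∧ t e ∈ X then f e else y e)) v =
          bd s t (fun e => w (f e)) v := by
        intro w
        refine bd_congr s t _ _ v fun e he => ?_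
        by_cases h : s e ∈ X ∧ t e ∈ X
        · rw [if_pos h]
        · rw [if_neg h, hc e]
          rw [mem_cut]
          intro h3
          rcases he with he | he
          · have h4 : s e ∈ X := by rw [he]; exact hv
            exact h ⟨h4, h3.1 h4⟩
          · have h4 : t e ∈ X := by rw [he]; exact hv
            exact h ⟨h3.2 h4, h4⟩
      rw [key lv, key cc]
      exact hf.2 v hv
    · have key : ∀ w : ℕ → ℤ, bd s t (fun e => w (if s e ∈ X ∧ t e ∈ X then f e else y e)) v =
          bd s t (fun e => w (y e)) v := by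
        intro w
        refine bd_congr s t _ _ v fun e he => ?_
        rw [if_neg]
        rintro ⟨h3, h4⟩
        rcases he with he | he
        · exact hv (he ▸ h3)
        · exact hv (he ▸ h4)
      rw [key lv, key cc]
      exact ⟨h1 v hv, h2 v hv⟩

end Pool.Agent.TH505.HQ
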